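import Pool.Agent.H65.CRZ.TL

/-!
# Row V0: the auxiliary function of an L-function
-/

set_option autoImplicit false

open Complex Set Metric Pool.Agent.H65.CRZ

namespace Pool.Agent.H3.CRZ

/-- Cauchy estimate for an entire function. -/
theorem cau {f : ℂ → ℂ} (hf : Differentiable ℂ f) {s : ℂ} {r M : ℝ} (hr : 0 < r)
    (h : ∀ w : ℂ, ‖w - s‖ = r → ‖f w‖ ≤ M) : ‖deriv f s‖ ≤ M / r := by
  apply Complex.norm_deriv_le_of_forall_mem_sphere_norm_le hr
  · exact hf.diffContOnCl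
  · intro w hw
    apply h
    rw [← dist_eq_norm]
    exact hw

theorem re_ge {w s : ℂ} {r : ℝ} (h : ‖w - s‖ = r) : s.re - r ≤ w.re := by
  have h1 := Complex.abs_re_le_norm (w - s)
  rw [h, sub_re] at h1
  have := abs_le.mp h1
  linarith [this.1]

theorem im_le {w s : ℂ} {r : ℝ} (h : ‖w - s‖ = r) : |w.im| ≤ |s.im| + r := by
  have h1 := Complex.abs_im_le_norm (w - s)
  rw [h, sub_im] at h1
  have h2 : w.im = s.im + (w.im - s.im) := by ring
  calc |w.im| = |s.im + (w.im - s.im)| := by rw [← h2]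
    _ ≤ |s.im| + |w.im - s.im| := abs_add_le _ _
    _ ≤ |s.im| + r := by linarith

theorem two_pow {C b x : ℝ} (hC : 1 ≤ C) (hb : C * (2 : ℝ) ^ (-b) ≤ 1 / 100) (hx : b - 1 / 2 ≤ x) :
    C * (2 : ℝ) ^ (-x) ≤ 2 / 100 := by
  have h1 : (2 : ℝ) ^ (-x) ≤ (2 : ℝ) ^ (-b + 1) :=
    Real.rpow_le_rpow_of_exponent_le (by norm_num) (by linarith)
  have h2 : (2 : ℝ) ^ (-b + 1) = (2 : ℝ) ^ (-b) * 2 := by
    rw [Real.rpow_add (by norm_num), Real.rpow_one]
  calc C * (2 : ℝ) ^ (-x) ≤ C * ((2 : ℝ) ^ (-b) * 2) := by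
        rw [← h2]; exact mul_le_mul_of_nonneg_left h1 (by linarith)
    _ = (C * (2 : ℝ) ^ (-b)) * 2 := by ring
    _ ≤ 2 / 100 := by linarith

/-- the coefficient -/
theorem cofs (h1 : T_G2) {lam A CT b T : ℝ} (hlam1 : 1 < lam) (hlam : lam < 2) (hA2 : 2 ≤ A)
    (hCT : 0 < CT) (hG : ∀ s : ℂ, 1 / 8 ≤ s.re → s.re ≤ b → |s.im| ≤ T →
      ‖ld Gamma s‖ ≤ CT ∧ ‖deriv (ld Gamma) s‖ ≤ CT)
    (hA : 11 * CT + 10 ≤ Real.log A) {s : ℂ} (hs1 : 1 / 8 ≤ s.re) (hs2 : s.re ≤ b)
    (hs3 : |s.im| ≤ T) :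
    ((2 * Real.log A / lam : ℝ) : ℂ) + ld Gamma s ≠ 0 ∧ DifferentiableAt ℂ (cof lam A) s ∧
      ‖cof lam A s‖ ≤ 1 / 10 ∧ ‖deriv (cof lam A) s‖ ≤ 1 / 100 := by
  have hl : Real.log A ≤ 2 * Real.log A / lam := by
    rw [le_div_iff₀ (by linarith)]
    have h0 : 0 ≤ Real.log A := Real.log_nonneg (by linarith)
    nlinarith
  obtain ⟨g1, g2⟩ := hG s hs1 hs2 hs3
  have hn : 10 * (1 + CT) ≤ ‖((2 * Real.log A / lam : ℝ) : ℂ) + ld Gamma s‖ := by
    have h2 : ‖((2 * Real.log A / lam : ℝ) : ℂ)‖ = 2 * Real.log A / lam := by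
      rw [Complex.norm_real, Real.norm_eq_abs, abs_of_nonneg]
      linarith [Real.log_nonneg (show (1 : ℝ) ≤ A by linarith)]
    have h3 := norm_sub_norm_le ((2 * Real.log A / lam : ℝ) : ℂ) (-(ld Gamma s))
    rw [sub_neg_eq_add, norm_neg, h2] at h3
    linarith
  have hne : ((2 * Real.log A / lam : ℝ) : ℂ) + ld Gamma s ≠ 0 := by
    intro h0
    rw [h0, norm_zero] at hn
    linarith
  obtain ⟨_, _, hd⟩ := h1.1 s (by linarith)
  have hda : HasDerivAt (fun s => ((2 * Real.log A / lam : ℝ) : ℂ) + ld Gamma s)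
      (deriv (ld Gamma) s) s := by
    have := hd.hasDerivAt.const_add ((2 * Real.log A / lam : ℝ) : ℂ)
    exact this
  have hinv := hda.inv hne
  have hcof : cof lam A = fun s => (((2 * Real.log A / lam : ℝ) : ℂ) + ld Gamma s)⁻¹ := by
    funext z
    simp only [cof, one_div]
  have hder : HasDerivAt (cof lam A)
      (-deriv (ld Gamma) s / (((2 * Real.log A / lam : ℝ) : ℂ) + ld Gamma s) ^ 2) s := by
    rw [hcof]
    exact hinv
  have hpos : 0 < ‖((2 * Real.log A / lam : ℝ) : ℂ) + ld Gamma s‖ := norm_pos_iff.mpr hne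
  refine ⟨hne, hder.differentiableAt, ?_, ?_⟩
  · rw [hcof]
    simp only
    rw [norm_inv]
    rw [inv_le_comm₀ hpos (by norm_num)]
    linarith
  · rw [hder.deriv, norm_div, norm_neg, norm_pow, div_le_iff₀ (by positivity)]
    have h5 : (10 * (1 + CT)) ^ 2 ≤ ‖((2 * Real.log A / lam : ℝ) : ℂ) + ld Gamma s‖ ^ 2 :=
      pow_le_pow_left₀ (by linarith) hn 2
    nlinarith

theorem pf_V0 (h1 : T_G2) : T_V0 := by
  intro C lam b hC hlam1 hlam2 hb hCb
  refine ⟨2 * C + 1, by linarith, ?_⟩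
  intro T hT
  obtain ⟨CT, hCT, hG⟩ := h1.2 (2 * b) T
  refine ⟨max (Real.exp (11 * CT + 10)) (T + 3), ?_, ?_⟩
  · exact le_trans (by linarith) (le_max_right _ _)
  intro A hA Z hZ s hs1 hs2 hs3
  have hA1 : Real.exp (11 * CT + 10) ≤ A := le_trans (le_max_left _ _) hA
  have hA3 : T + 3 ≤ A := le_trans (le_max_right _ _) hA
  have hA2 : 2 ≤ A := by linarith
  have hA0 : 0 < A := by linarith
  have hlog : 11 * CT + 10 ≤ Real.log A := by
    rw [Real.le_log_iff_exp_le hA0]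
    exact hA1
  obtain ⟨hne, hcd, hc1, hc2⟩ := cofs h1 hlam1 hlam2 hA2 hCT hG hlog hs1.le hs2.le hs3.le
  -- bound of Z
  have hZb : ∀ w : ℂ, -1 ≤ w.re → |w.im| ≤ T + 1 → ‖Z w‖ ≤ A ^ (2 * C) := by
    intro w hw1 hw2
    have h2 := hZ.bd w hw1
    have h3 : (A * (2 + |w.im|)) ^ C ≤ (A * A) ^ C := by
      apply Real.rpow_le_rpow
      · positivity
      · apply mul_le_mul_of_nonneg_left _ hA0.le
        linarith
      · linarith
    have h4 : (A * A) ^ C = A ^ (2 * C) := by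
      rw [← pow_two, ← Real.rpow_natCast, ← Real.rpow_mul hA0.le]
      norm_num
    linarith
  have hZs : ‖Z s‖ ≤ A ^ (2 * C) := hZb s (by linarith) (by linarith)
  have hZ' : ‖deriv Z s‖ ≤ 8 * A ^ (2 * C) := by
    have := cau (f := Z) hZ.diff (s := s) (r := 1 / 8) (M := A ^ (2 * C)) (by norm_num) (by
      intro w hw
      apply hZb w
      · linarith [re_ge hw]
      · linarith [im_le hw])
    have h5 : A ^ (2 * C) / (1 / 8) = 8 * A ^ (2 * C) := by ring
    rw [h5] at this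
    exact this
  have hZd : Differentiable ℂ (deriv Z) := by
    have h6 : DifferentiableOn ℂ (deriv Z) univ :=
      (hZ.diff.differentiableOn (s := univ)).deriv isOpen_univ
    exact fun z => (h6 z (mem_univ z)).differentiableAt Filter.univ_mem
  have hVd : HasDerivAt (VZ lam A Z) (deriv Z s + (deriv (cof lam A) s * deriv Z s +
      cof lam A s * deriv (deriv Z) s)) s := by
    have h7 := (hZ.diff s).hasDerivAt.add (hcd.hasDerivAt.mul (hZd s).hasDerivAt)
    exact h7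
  have hAp : (0 : ℝ) < A ^ (2 * C) := Real.rpow_pos_of_pos hA0 _
  have hA21 : A ^ (2 * C + 1) = A ^ (2 * C) * A := by
    rw [Real.rpow_add hA0, Real.rpow_one]
  have hcm : ‖cof lam A s * deriv Z s‖ ≤ 1 / 10 * (8 * A ^ (2 * C)) := by
    rw [norm_mul]
    exact mul_le_mul hc1 hZ' (norm_nonneg _) (by norm_num)
  refine ⟨hcd, hVd.differentiableAt, hne, by linarith, ?_, ?_, ?_⟩
  · rw [hA21]
    nlinarith
  · have h8 : ‖VZ lam A Z s‖ ≤ ‖Z s‖ + ‖cof lam A s * deriv Z s‖ := norm_add_le _ _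
    rw [hA21]
    nlinarith
  · intro hbs
    have hone : ∀ w : ℂ, b - 1 / 2 ≤ w.re → ‖Z w - 1‖ ≤ 2 / 100 := by
      intro w hw
      have := hZ.one w (by linarith)
      exact this.trans (two_pow hC hCb hw)
    have hdZ : ∀ w : ℂ, b - 1 / 4 ≤ w.re → ‖deriv Z w‖ ≤ 8 / 100 := by
      intro w hw
      have h9 := cau (f := fun z => Z z - 1) (hZ.diff.sub_const 1) (s := w) (r := 1 / 4)
        (M := 2 / 100) (by norm_num) (by
          intro u hu
          apply hone
          linarith [re_ge hu])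
      rw [deriv_sub_const_fun] at h9
      linarith
    have hddZ : ‖deriv (deriv Z) s‖ ≤ 32 / 100 := by
      have h9 := cau (f := deriv Z) hZd (s := s) (r := 1 / 4)
        (M := 8 / 100) (by norm_num) (by
          intro u hu
          apply hdZ
          linarith [re_ge hu])
      linarith
    have e1 : ‖Z s - 1‖ ≤ 2 / 100 := hone s (by linarith)
    have e2 : ‖deriv Z s‖ ≤ 8 / 100 := hdZ s (by linarith)
    have e3 : ‖cof lam A s * deriv Z s‖ ≤ 1 / 10 * (8 / 100) := by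
      rw [norm_mul]
      exact mul_le_mul hc1 e2 (norm_nonneg _) (by norm_num)
    have e4 : ‖deriv (cof lam A) s * deriv Z s‖ ≤ 1 / 100 * (8 / 100) := by
      rw [norm_mul]
      exact mul_le_mul hc2 e2 (norm_nonneg _) (by norm_num)
    have e5 : ‖cof lam A s * deriv (deriv Z) s‖ ≤ 1 / 10 * (32 / 100) := by
      rw [norm_mul]
      exact mul_le_mul hc1 hddZ (norm_nonneg _) (by norm_num)
    refine ⟨by linarith, by linarith, ?_, ?_⟩
    · have e6 : VZ lam A Z s - 1 = (Z s - 1) + cof lam A s * deriv Z s := by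
        simp only [VZ]; ring
      rw [e6]
      have := norm_add_le (Z s - 1) (cof lam A s * deriv Z s)
      linarith
    · rw [hVd.deriv]
      have t1 := norm_add_le (deriv Z s) (deriv (cof lam A) s * deriv Z s +
        cof lam A s * deriv (deriv Z) s)
      have t2 := norm_add_le (deriv (cof lam A) s * deriv Z s)
        (cof lam A s * deriv (deriv Z) s)
      linarith

end Pool.Agent.H3.CRZ
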