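import Pool.Agent.H65.CRZ.TL
import Pool.Agent.H19.CRZ.SY

/-!
# Row RV: upper bound for the number of zeros
-/

set_option autoImplicit false

open Complex Set MeasureTheory Filter Topology Pool.Agent.H65.CRZ

namespace Pool.Agent.H3.CRZ.RV

theorem unit_root {ε : ℂ} (h : ‖ε‖ = 1) : ∃ e : ℂ, ‖e‖ = 1 ∧ e * e = ε := by
  obtain ⟨e, he⟩ := IsAlgClosed.exists_pow_nat_eq ε (n := 2) (by norm_num)
  refine ⟨e, ?_, by rw [← he]; ring⟩
  have h1 : ‖e‖ ^ 2 = 1 := by rw [← norm_pow, he, h]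
  exact (pow_eq_one_iff_of_nonneg (norm_nonneg e) (by norm_num)).mp h1

theorem rp_congr {f g : ℂ → ℂ} {a b t₁ t₂ : ℝ} (hab : a ≤ b) (ha : 0 < a)
    (h : ∀ s : ℂ, 0 < s.re → ld f s = ld g s) : rp f a b t₁ t₂ = rp g a b t₁ t₂ := by
  have h1 : ∀ t : ℝ, (∫ x in a..b, (ld f (x + t * I)).im) =
      ∫ x in a..b, (ld g (x + t * I)).im := by
    intro t
    apply intervalIntegral.integral_congr
    intro x hx
    rw [uIcc_of_le hab] at hx
    simp only
    rw [h]
    simp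
    linarith [hx.1]
  have h2 : (∫ t in t₁..t₂, (ld f (b + t * I)).re) = ∫ t in t₁..t₂, (ld g (b + t * I)).re := by
    apply intervalIntegral.integral_congr
    intro x _
    simp only
    rw [h]
    simp
    linarith
  simp only [rp]
  rw [h1, h2, h1]

theorem zc_congr {f g : ℂ → ℂ} {S : Set ℂ} (h : ∀ s ∈ S, f =ᶠ[𝓝 s] g) : zc f S = zc g S := by
  have h1 : {ρ : ℂ | ρ ∈ S ∧ f ρ = 0} = {ρ : ℂ | ρ ∈ S ∧ g ρ = 0} := by
    ext ρ
    constructor
    · rintro ⟨a, b⟩
      exact ⟨a, by rw [← (h ρ a).eq_of_nhds]; exact b⟩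
    · rintro ⟨a, b⟩
      exact ⟨a, by rw [(h ρ a).eq_of_nhds]; exact b⟩
  simp only [zc]
  rw [h1]
  apply finsum_mem_congr rfl
  intro ρ hρ
  rw [analyticOrderNatAt, analyticOrderNatAt, analyticOrderAt_congr (h ρ hρ.1)]

theorem anGamma (h5 : T_G2) {s : ℂ} (hs : 0 < s.re) : AnalyticAt ℂ Gamma s := by
  rw [Complex.analyticAt_iff_eventually_differentiableAt]
  have ho : IsOpen {w : ℂ | 0 < w.re} := isOpen_lt continuous_const Complex.continuous_re
  filter_upwards [ho.mem_nhds hs] with w hw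
  exact (h5.1 w hw).1

theorem anPow {A : ℝ} (hA : 0 < A) (s : ℂ) : AnalyticAt ℂ (fun w : ℂ => (A : ℂ) ^ w) s := by
  rw [Complex.analyticAt_iff_eventually_differentiableAt]
  filter_upwards with w
  exact DifferentiableAt.const_cpow differentiableAt_id (Or.inl (by exact_mod_cast hA.ne'))

theorem powne {A : ℝ} (hA : 0 < A) (s : ℂ) : (A : ℂ) ^ s ≠ 0 := by
  rw [Complex.cpow_ne_zero_iff]
  exact Or.inl (by exact_mod_cast hA.ne')

/-- a height without zeros -/
theorem height {Z : ℂ → ℂ} (hZ : Differentiable ℂ Z) {b T x y : ℝ} (hb : Z b ≠ 0) (hxy : x < y)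
    (hx : -1 ≤ x) (hy : y ≤ T + 1) : ∃ t ∈ Ioo x y, ∀ u ∈ Icc (1 / 2 : ℝ) b, Z (u + t * I) ≠ 0 := by
  have hc : IsCompact (Icc (1 / 2) b ×ℂ Icc (-1) (T + 1)) := isCompact_Icc.reProdIm isCompact_Icc
  have hfin := Pool.Agent.H19.CRZ.zeros_finite hZ hb hc
  have hfin2 := hfin.image Complex.im
  obtain ⟨t, ht1, ht2⟩ := ((Ioo_infinite hxy).sdiff hfin2).nonempty
  refine ⟨t, ht1, ?_⟩
  intro u hu h0
  apply ht2
  refine ⟨(u : ℂ) + t * I, ⟨?_, h0⟩, by simp⟩
  rw [Complex.mem_reProdIm]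
  simp only [add_re, ofReal_re, mul_re, I_re, mul_zero, ofReal_im, I_im, mul_one, sub_self,
    add_zero, add_im, mul_im, zero_add]
  exact ⟨hu, by linarith [ht1.1], by linarith [ht1.2]⟩

/-- the argument of `Z` on the three sides -/
theorem rpZ (h4 : T_BK) {K b T A : ℝ} {Z : ℂ → ℂ} (hb : 2 ≤ b) (hT : 0 < T) (hK : 0 < K)
    (hA : 3 ≤ A) (hAT : 2 * (T + 2) ≤ Real.log A)
    (hZ : Differentiable ℂ Z)
    (hbd : ∀ s : ℂ, 1 / 8 < s.re → s.re < 2 * b → |s.im| < T + 2 + b → ‖Z s‖ ≤ A ^ K)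
    (hright : ∀ s : ℂ, s.re = b → |s.im| < T + 2 + b → ‖Z s - 1‖ ≤ 1 / 4 ∧ ‖deriv Z s‖ ≤ 1)
    {t₁ t₂ : ℝ} (h1 : -1 < t₁) (h1' : t₁ < 0) (h2 : T < t₂) (h2' : t₂ < T + 1)
    (hz1 : ∀ u ∈ Icc (1 / 2 : ℝ) b, Z (u + t₁ * I) ≠ 0)
    (hz2 : ∀ u ∈ Icc (1 / 2 : ℝ) b, Z (u + t₂ * I) ≠ 0) :
    |rp Z (1 / 2) b t₁ t₂| ≤
      (1 + 2 * Real.pi * ((1 + K) / Real.log ((b - 1 / 4) / (b - 1 / 2)) + 1)) * Real.log A := by
  have hA0 : 0 < A := by linarith
  have hlA : 1 ≤ Real.log A := by linarith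
  have hl2 : Real.log 2 ≤ Real.log A := Real.log_le_log (by norm_num) (by linarith)
  have hlr : 0 < Real.log ((b - 1 / 4) / (b - 1 / 2)) := by
    apply Real.log_pos
    rw [one_lt_div (by linarith)]
    linarith
  have hor : ∀ h : ℝ, -1 < h → h < T + 1 → (∀ u ∈ Icc (1 / 2 : ℝ) b, Z (u + h * I) ≠ 0) →
      |∫ x in (1 / 2 : ℝ)..b, (ld Z (x + h * I)).im| ≤
        Real.pi * ((1 + K) / Real.log ((b - 1 / 4) / (b - 1 / 2)) + 1) * Real.log A := by
    intro h hh1 hh2 hz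
    have habs : |h| < T + 1 := abs_lt.mpr ⟨by linarith, hh2⟩
    have hbk := h4 Z b h (b - 1 / 2) (b - 1 / 4) (A ^ K) univ (by linarith) (by linarith)
      isOpen_univ (subset_univ _) (fun s _ => hZ s) (by
        intro s hs
        rw [Metric.mem_closedBall, dist_eq_norm] at hs
        have r1 := Complex.abs_re_le_norm (s - (b + h * I))
        have r2 := Complex.abs_im_le_norm (s - (b + h * I))
        simp only [sub_re, add_re, ofReal_re, mul_re, I_re, mul_zero, ofReal_im, I_im, mul_one,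
          sub_self, add_zero, sub_im, add_im, mul_im, zero_add] at r1 r2
        have r3 := abs_le.mp (r1.trans hs)
        have r4 := r2.trans hs
        have r5 : |s.im| ≤ |s.im - h| + |h| := by
          have := abs_add_le (s.im - h) h
          rwa [sub_add_cancel] at this
        apply hbd
        · linarith [r3.1]
        · linarith [r3.2]
        · linarith) (by
        have hr := (hright (b + h * I) (by simp) (by
          simp only [add_im, ofReal_im, mul_im, ofReal_re, I_im, mul_one, I_re, mul_zero,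
            add_zero, zero_add]
          linarith)).1
        have r6 := (abs_le.mp ((Complex.abs_re_le_norm _).trans hr)).1
        rw [sub_re, one_re] at r6
        linarith) (by
        intro x hx
        rw [sub_sub_cancel] at hx
        exact hz x hx)
    rw [sub_sub_cancel] at hbk
    refine hbk.trans ?_
    have hlog : Real.log (2 * A ^ K) ≤ (1 + K) * Real.log A := by
      rw [Real.log_mul (by norm_num) (Real.rpow_pos_of_pos hA0 K).ne', Real.log_rpow hA0]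
      linarith
    have hdiv : Real.log (2 * A ^ K) / Real.log ((b - 1 / 4) / (b - 1 / 2)) ≤
        (1 + K) / Real.log ((b - 1 / 4) / (b - 1 / 2)) * Real.log A := by
      rw [div_mul_eq_mul_div]
      exact div_le_div_of_nonneg_right hlog hlr.le
    have hpi := Real.pi_pos
    calc Real.pi * (Real.log (2 * A ^ K) / Real.log ((b - 1 / 4) / (b - 1 / 2)) + 1)
        ≤ Real.pi * ((1 + K) / Real.log ((b - 1 / 4) / (b - 1 / 2)) * Real.log A +
            Real.log A) := by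
          apply mul_le_mul_of_nonneg_left _ hpi.le
          linarith
      _ = _ := by ring
  have hvert : |∫ t in t₁..t₂, (ld Z (b + t * I)).re| ≤ Real.log A := by
    have hle : ∀ t ∈ Set.uIoc t₁ t₂, ‖(ld Z (b + t * I)).re‖ ≤ 2 := by
      intro t ht
      rw [uIoc_of_le (by linarith)] at ht
      have hr := hright (b + t * I) (by simp) (by
        simp only [add_im, ofReal_im, mul_im, ofReal_re, I_im, mul_one, I_re, mul_zero,
          add_zero, zero_add]
        rw [abs_lt]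
        constructor
        · linarith [ht.1]
        · linarith [ht.2])
      have hn : 1 / 2 ≤ ‖Z (b + t * I)‖ := by
        have := norm_sub_norm_le (1 : ℂ) (Z (b + t * I))
        rw [norm_one, norm_sub_rev] at this
        linarith [hr.1]
      rw [Real.norm_eq_abs]
      refine (Complex.abs_re_le_norm _).trans ?_
      rw [ld, norm_div, div_le_iff₀ (by linarith)]
      linarith [hr.2]
    have := intervalIntegral.norm_integral_le_of_norm_le_const hle
    rw [Real.norm_eq_abs] at this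
    have h3 : |t₂ - t₁| ≤ T + 2 := by
      rw [abs_of_nonneg (by linarith)]
      linarith
    linarith
  have a1 := hor t₁ h1 (by linarith) hz1
  have a2 := hor t₂ (by linarith) h2' hz2
  simp only [rp]
  have t1 := abs_sub (((∫ x in (1 / 2 : ℝ)..b, (ld Z (x + t₁ * I)).im) +
    ∫ t in t₁..t₂, (ld Z (b + t * I)).re)) (∫ x in (1 / 2 : ℝ)..b, (ld Z (x + t₂ * I)).im)
  have t2 := abs_add_le (∫ x in (1 / 2 : ℝ)..b, (ld Z (x + t₁ * I)).im)
    (∫ t in t₁..t₂, (ld Z (b + t * I)).re)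
  linarith

theorem pf_RV (h1 : T_RP) (h2 : T_ZM) (h3 : T_N2) (h4 : T_BK) (h5 : T_G2) (h6 : T_V0)
    (h7 : T_SY) : T_RV := by
  intro C b hC hb hCb
  obtain ⟨K, hK, hV⟩ := h6 C (3 / 2) b hC (by norm_num) (by norm_num) hb hCb
  have hpi := Real.pi_pos
  have hlr : 0 < Real.log ((b - 1 / 4) / (b - 1 / 2)) := by
    apply Real.log_pos
    rw [one_lt_div (by linarith)]
    linarith
  set B : ℝ := (1 + K) / Real.log ((b - 1 / 4) / (b - 1 / 2)) + 1 with hB
  have hB0 : 0 < B := by positivity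
  refine ⟨1 / Real.pi * (4 + 2 * Real.pi * B), by positivity, ?_⟩
  intro T hT
  obtain ⟨A₁, hA₁, hV1⟩ := hV (T + 2 + b) (by linarith)
  obtain ⟨CT, hCT, hG⟩ := h5.2 b (T + 1)
  refine ⟨max (max A₁ 3) (max (Real.exp (2 * (T + 2))) (Real.exp (CT * (2 * b + T + 2)))), ?_, ?_⟩
  · exact le_trans hA₁ (le_trans (le_max_left _ _) (le_max_left _ _))
  intro A hA Z hZ
  have hAA : A₁ ≤ A := le_trans (le_trans (le_max_left _ _) (le_max_left _ _)) hA
  have hA3 : 3 ≤ A := le_trans (le_trans (le_max_right _ _) (le_max_left _ _)) hA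
  have hAe : Real.exp (2 * (T + 2)) ≤ A := le_trans (le_trans (le_max_left _ _) (le_max_right _ _)) hA
  have hAe2 : Real.exp (CT * (2 * b + T + 2)) ≤ A :=
    le_trans (le_trans (le_max_right _ _) (le_max_right _ _)) hA
  have hA0 : 0 < A := by linarith
  have hl1 : 2 * (T + 2) ≤ Real.log A := by
    rw [Real.le_log_iff_exp_le hA0]; exact hAe
  have hl2 : CT * (2 * b + T + 2) ≤ Real.log A := by
    rw [Real.le_log_iff_exp_le hA0]; exact hAe2
  obtain ⟨hfin, hloc, hsym⟩ := h7 C A b T hA0 hb hCb Z hZ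
  refine ⟨hfin, ?_⟩
  have hVV := fun s a b c => hV1 A hAA Z hZ s a b c
  obtain ⟨Λ, ε, hΛ, hε, hg, hfe⟩ := hZ.fe
  obtain ⟨e, he1, he2⟩ := unit_root hε
  have hee : (starRingEnd ℂ) e * e = 1 := by
    rw [mul_comm, Complex.mul_conj, Complex.normSq_eq_norm_sq, he1]
    norm_num
  have hce : (starRingEnd ℂ) e ≠ 0 := by
    intro h0
    rw [h0, zero_mul] at hee
    exact zero_ne_one hee
  set F : ℂ → ℂ := fun s => (starRingEnd ℂ) e * Λ s with hF
  have hFd : Differentiable ℂ F := hΛ.const_mul _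
  have hFr : ∀ t : ℝ, (F (1 / 2 + t * I)).im = 0 := by
    intro t
    rw [← Complex.conj_eq_iff_im]
    have hs : (1 : ℂ) - (starRingEnd ℂ) (1 / 2 + t * I) = 1 / 2 + t * I := by
      simp only [map_add, map_div₀, map_one, map_ofNat, map_mul, conj_ofReal, conj_I]
      ring
    have h8 := hfe (1 / 2 + t * I)
    rw [hs] at h8
    simp only [hF, map_mul, conj_conj]
    conv_rhs => rw [h8, ← he2]
    calc e * (starRingEnd ℂ) (Λ (1 / 2 + t * I)) =
        1 * (e * (starRingEnd ℂ) (Λ (1 / 2 + t * I))) := by rw [one_mul]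
      _ = _ := by rw [← hee]; ring
  have hgam : ∀ s : ℂ, 0 < s.re → ∀ n : ℕ, s ≠ -(n : ℂ) := by
    intro s hs n hn
    rw [hn] at hs
    simp at hs
    linarith [(Nat.cast_nonneg n : (0 : ℝ) ≤ n)]
  have hFe : ∀ s : ℂ, 0 < s.re → F s = Z s * ((starRingEnd ℂ) e * ((A : ℂ) ^ s * Gamma s)) := by
    intro s hs
    simp only [hF]
    rw [hg s (hgam s hs)]
    ring
  have hopen : IsOpen {w : ℂ | 0 < w.re} := isOpen_lt continuous_const Complex.continuous_re
  have hFev : ∀ s : ℂ, 0 < s.re →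
      F =ᶠ[𝓝 s] fun s => Z s * ((starRingEnd ℂ) e * ((A : ℂ) ^ s * Gamma s)) := by
    intro s hs
    filter_upwards [hopen.mem_nhds hs] with w hw
    exact hFe w hw
  have hgne : ∀ s : ℂ, 0 < s.re → (starRingEnd ℂ) e * ((A : ℂ) ^ s * Gamma s) ≠ 0 := by
    intro s hs
    exact mul_ne_zero hce (mul_ne_zero (powne hA0 s) (h5.1 s hs).2.1)
  have hright : ∀ s : ℂ, s.re = b → |s.im| < T + 2 + b → ‖Z s - 1‖ ≤ 1 / 4 ∧ ‖deriv Z s‖ ≤ 1 := by
    intro s hs hi
    have := (hVV s (by linarith) (by linarith) hi).2.2.2.2.2.2 (by linarith)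
    exact ⟨this.1, this.2.1⟩
  have hne1 : ∀ s : ℂ, s.re = b → |s.im| < T + 2 + b → Z s ≠ 0 := by
    intro s hs hi h0
    have := (hright s hs hi).1
    rw [h0, zero_sub, norm_neg, norm_one] at this
    linarith
  have hZb : Z b ≠ 0 := hne1 b (by simp) (by simp; linarith)
  obtain ⟨t₁, ⟨ht1, ht1'⟩, hz1⟩ := height (T := T) hZ.diff hZb (x := -1) (y := 0) (by norm_num)
    (by norm_num) (by linarith)
  obtain ⟨t₂, ⟨ht2, ht2'⟩, hz2⟩ := height (T := T) hZ.diff hZb (x := T) (y := T + 1) (by linarith)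
    (by linarith) le_rfl
  -- the argument
  have hrpZ := rpZ h4 (K := K) (T := T) (A := A) (Z := Z) hb hT hK hA3 hl1 hZ.diff
    (fun s a b c => (hVV s a b c).2.2.2.2.1) hright ht1 ht1' ht2 ht2' hz1 hz2
  have hside : ∀ s : ℂ, (1 / 2 ≤ s.re ∧ s.re ≤ b ∧ (s.im = t₁ ∨ s.im = t₂)) ∨
      (s.re = b ∧ t₁ ≤ s.im ∧ s.im ≤ t₂) → 1 / 2 ≤ s.re ∧ s.re ≤ b ∧ |s.im| ≤ T + 1 ∧ Z s ≠ 0 := by
    intro s hs
    have hab : t₁ ≤ s.im ∧ s.im ≤ t₂ := by
      rcases hs with ⟨_, _, h9 | h9⟩ | h9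
      · rw [h9]; exact ⟨le_rfl, by linarith⟩
      · rw [h9]; exact ⟨by linarith, le_rfl⟩
      · exact h9.2
    have habs : |s.im| ≤ T + 1 := abs_le.mpr ⟨by linarith [hab.1], by linarith [hab.2]⟩
    rcases hs with ⟨p1, p2, h9 | h9⟩ | h9
    · refine ⟨p1, p2, habs, ?_⟩
      have := hz1 s.re ⟨p1, p2⟩
      rw [← h9, Complex.re_add_im] at this
      exact this
    · refine ⟨p1, p2, habs, ?_⟩
      have := hz2 s.re ⟨p1, p2⟩
      rw [← h9, Complex.re_add_im] at this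
      exact this
    · refine ⟨by linarith [h9.1], h9.1.le, habs, hne1 s h9.1 (by linarith)⟩
  have hrpF : rp F (1 / 2) b t₁ t₂ = (t₂ - t₁) * Real.log A + (rp Gamma (1 / 2) b t₁ t₂ +
      rp Z (1 / 2) b t₁ t₂) := by
    have e1 : rp F (1 / 2) b t₁ t₂ =
        rp (fun s => (starRingEnd ℂ) e * ((fun s : ℂ => (A : ℂ) ^ s * (Gamma s * Z s)) s))
          (1 / 2) b t₁ t₂ := by
      apply rp_congr (by linarith) (by norm_num)
      intro s hs
      have hev : F =ᶠ[𝓝 s]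
          fun s => (starRingEnd ℂ) e * ((fun s : ℂ => (A : ℂ) ^ s * (Gamma s * Z s)) s) := by
        filter_upwards [hopen.mem_nhds hs] with w hw
        rw [hFe w hw]
        ring
      rw [ld, ld, hev.deriv_eq, hev.eq_of_nhds]
    rw [e1, h1.2.2.2 _ _ _ _ _ _ hce]
    have e2 := h1.1 (fun s : ℂ => (A : ℂ) ^ s) (fun s => Gamma s * Z s) (1 / 2) b t₁ t₂
      (by linarith) (by linarith) (by
        intro s hs
        obtain ⟨q1, q2, q3, q4⟩ := hside s hs
        exact ⟨anPow hA0 s, (anGamma h5 (by linarith)).mul (hZ.diff.analyticAt s), powne hA0 s,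
          mul_ne_zero (h5.1 s (by linarith)).2.1 q4⟩)
    have e3 := h1.1 Gamma Z (1 / 2) b t₁ t₂
      (by linarith) (by linarith) (by
        intro s hs
        obtain ⟨q1, q2, q3, q4⟩ := hside s hs
        exact ⟨anGamma h5 (by linarith), hZ.diff.analyticAt s, (h5.1 s (by linarith)).2.1, q4⟩)
    rw [e2, e3, h1.2.2.1 A (1 / 2) b t₁ t₂ hA0]
  have hrpG : |rp Gamma (1 / 2) b t₁ t₂| ≤ Real.log A := by
    have := h1.2.1 Gamma (1 / 2) b t₁ t₂ CT (by linarith) (by linarith) (by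
      intro s hs
      obtain ⟨q1, q2, q3, q4⟩ := hside s hs
      exact (hG s (by linarith) q2 q3).1)
    refine this.trans (le_trans ?_ hl2)
    apply mul_le_mul_of_nonneg_left _ hCT.le
    linarith
  have hrpFle : rp F (1 / 2) b t₁ t₂ ≤ (T + (4 + 2 * Real.pi * B)) * Real.log A := by
    rw [hrpF]
    have g1 := (abs_le.mp hrpG).2
    have g2 := (abs_le.mp hrpZ).2
    have hlA : 0 ≤ Real.log A := by linarith
    have g3 : (t₂ - t₁) * Real.log A ≤ (T + 2) * Real.log A :=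
      mul_le_mul_of_nonneg_right (by linarith) hlA
    rw [← hB] at g2
    linarith
  -- the zeros of F
  have hN2 := h3 F b t₁ t₂ (by linarith) (by linarith) hFd hFr (by
    intro x hx
    have w1 : (0 : ℝ) < ((x : ℂ) + t₁ * I).re := by simp; linarith [hx.1]
    have w2 : (0 : ℝ) < ((x : ℂ) + t₂ * I).re := by simp; linarith [hx.1]
    rw [hFe _ w1, hFe _ w2]
    exact ⟨mul_ne_zero (hz1 x hx) (hgne _ w1), mul_ne_zero (hz2 x hx) (hgne _ w2)⟩) (by
    intro t ht
    have w1 : (0 : ℝ) < ((b : ℂ) + t * I).re := by simp; linarith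
    rw [hFe _ w1]
    refine mul_ne_zero (hne1 _ (by simp) ?_) (hgne _ w1)
    simp only [add_im, ofReal_im, mul_im, ofReal_re, I_im, mul_one, I_re, mul_zero,
      add_zero, zero_add]
    rw [abs_lt]
    constructor
    · linarith [ht.1]
    · linarith [ht.2])
  have hord : ∀ s : ℂ, analyticOrderAt Z s ≠ ⊤ := by
    intro s
    have h10 : AnalyticOnNhd ℂ Z univ := fun z _ => hZ.diff.analyticAt z
    intro htop
    rw [analyticOrderAt_eq_top] at htop
    have := h10.eqOn_zero_of_preconnected_of_eventuallyEq_zero isPreconnected_univ (mem_univ s)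
      htop
    exact hZb (this (mem_univ (b : ℂ)))
  have hgan : ∀ s : ℂ, 0 < s.re →
      AnalyticAt ℂ (fun s => (starRingEnd ℂ) e * ((A : ℂ) ^ s * Gamma s)) s := by
    intro s hs
    exact analyticAt_const.mul ((anPow hA0 s).mul (anGamma h5 hs))
  have hcomp : ∀ S U : Set ℂ, S ⊆ U → (∀ s ∈ U, 0 < s.re ∧ s.re ≤ b ∧ t₁ ≤ s.im ∧ s.im ≤ t₂ ∧
      1 / 2 ≤ s.re) → zc Z S ≤ zc F U := by
    intro S U hSU hU
    have hzc : zc F U = zc (fun s => Z s * ((starRingEnd ℂ) e * ((A : ℂ) ^ s * Gamma s))) U :=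
      zc_congr (fun s hs => hFev s (hU s hs).1)
    rw [hzc]
    refine (h2.1 Z (fun s => (starRingEnd ℂ) e * ((A : ℂ) ^ s * Gamma s)) S U hSU ?_ ?_).2.1
    · intro s hs
      refine ⟨hZ.diff.analyticAt s, hgan s (hU s hs).1, hord s, ?_⟩
      rw [(hgan s (hU s hs).1).analyticOrderAt_eq_zero.2 (hgne s (hU s hs).1)]
      exact ENat.zero_ne_top
    · have hc : IsCompact (Icc (1 / 2) b ×ℂ Icc (-1) (T + 1)) :=
        isCompact_Icc.reProdIm isCompact_Icc
      refine (Pool.Agent.H19.CRZ.zeros_finite hZ.diff hZb hc).subset ?_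
      rintro s ⟨hs, h0⟩
      obtain ⟨u1, u2, u3, u4, u5⟩ := hU s hs
      refine ⟨?_, ?_⟩
      · rw [Complex.mem_reProdIm]
        exact ⟨⟨u5, u2⟩, ⟨by linarith, by linarith⟩⟩
      · rcases mul_eq_zero.mp h0 with h0 | h0
        · exact h0
        · exact absurd h0 (hgne s u1)
  have c1 := hcomp {ρ : ℂ | 1 / 2 < ρ.re ∧ ρ.re < b ∧ ρ ∈ St T}
    {ρ : ℂ | 1 / 2 < ρ.re ∧ ρ.re < b ∧ t₁ < ρ.im ∧ ρ.im < t₂} (by
      rintro ρ ⟨v1, v2, v3, v4⟩
      exact ⟨v1, v2, by linarith, by linarith⟩) (by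
      rintro ρ ⟨v1, v2, v3, v4⟩
      exact ⟨by linarith, v2.le, v3.le, v4.le, v1.le⟩)
  have c2 := hcomp {ρ : ℂ | ρ.re = 1 / 2 ∧ ρ ∈ St T}
    {ρ : ℂ | ρ.re = 1 / 2 ∧ t₁ < ρ.im ∧ ρ.im < t₂} (by
      rintro ρ ⟨v1, v3, v4⟩
      exact ⟨v1, by linarith, by linarith⟩) (by
      rintro ρ ⟨v1, v3, v4⟩
      exact ⟨by linarith, by linarith, v3.le, v4.le, v1.symm.le⟩)
  rw [hsym]
  have hfinal : 1 / Real.pi * rp F (1 / 2) b t₁ t₂ ≤
      1 / Real.pi * ((T + (4 + 2 * Real.pi * B)) * Real.log A) :=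
    mul_le_mul_of_nonneg_left hrpFle (by positivity)
  have hlast : 1 / Real.pi * ((T + (4 + 2 * Real.pi * B)) * Real.log A) =
      T / Real.pi * Real.log A + 1 / Real.pi * (4 + 2 * Real.pi * B) * Real.log A := by ring
  linarith

end Pool.Agent.H3.CRZ.RV
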